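import Mathlib
import Pool.Agent.Q67.VD.Defs

set_option autoImplicit false

/-!
# Project VD: the kernel `1 / |z|²` and Morrey bounds
-/

open MeasureTheory Set Metric
open scoped ENNReal
open H459R3.NS

namespace Pool.Agent.Q225.VD

/-- the kernel -/
noncomputable def ker (z : V) : ℝ≥0∞ := ENNReal.ofReal ((‖z‖ ^ 2)⁻¹)

lemma measurable_ker : Measurable ker :=
  ENNReal.measurable_ofReal.comp ((measurable_norm.pow_const 2).inv)

lemma ker_neg (z : V) : ker (-z) = ker z := by
  unfold ker
  rw [norm_neg]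

lemma ker_le {z : V} {t : ℝ} (ht : 0 < t) (h : t < ‖z‖) : ker z ≤ ENNReal.ofReal ((t ^ 2)⁻¹) := by
  unfold ker
  apply ENNReal.ofReal_le_ofReal
  apply inv_anti₀ (by positivity)
  exact pow_le_pow_left₀ ht.le h.le 2

lemma tsum_geom (a : ℝ) (ha : 0 ≤ a) : ∑' k : ℕ, ENNReal.ofReal (a * (1 / 2) ^ k) = ENNReal.ofReal (2 * a) := by
  rw [← ENNReal.ofReal_tsum_of_nonneg (fun k => by positivity)
    ((summable_geometric_of_lt_one (by norm_num) (by norm_num)).mul_left a)]
  rw [tsum_mul_left, tsum_geometric_two]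
  ring_nf

lemma exists_pow_lt (r t : ℝ) (hr : 0 < r) (ht : 0 < t) (h : r < t) :
    ∃ k : ℕ, r * 2 ^ k < t ∧ t ≤ r * 2 ^ (k + 1) := by
  have h1 : ∃ k : ℕ, t ≤ r * 2 ^ k := by
    obtain ⟨k, hk⟩ := pow_unbounded_of_one_lt (t / r) (by norm_num : (1 : ℝ) < 2)
    refine ⟨k, ?_⟩
    rw [div_lt_iff₀ hr] at hk
    linarith
  classical
  obtain ⟨k, hk⟩ : ∃ k, k = Nat.find h1 := ⟨_, rfl⟩
  have h2 := Nat.find_spec h1
  have h3 : Nat.find h1 ≠ 0 := by
    intro h'
    rw [h', pow_zero, mul_one] at h2
    linarith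
  obtain ⟨j, hj⟩ := Nat.exists_eq_succ_of_ne_zero h3
  refine ⟨j, ?_, ?_⟩
  · have := Nat.find_min h1 (m := j) (by omega)
    exact not_le.1 this
  · rw [hj] at h2
    exact h2

lemma exists_pow_lt' (r t : ℝ) (ht : 0 < t) (h : t ≤ r) :
    ∃ k : ℕ, r * (1 / 2) ^ (k + 1) < t ∧ t ≤ r * (1 / 2) ^ k := by
  have hr : 0 < r := ht.trans_le h
  have h1 : ∃ k : ℕ, r * (1 / 2) ^ (k + 1) < t := by
    obtain ⟨k, hk⟩ := exists_pow_lt_of_lt_one (div_pos ht hr) (by norm_num : (1 / 2 : ℝ) < 1)
    refine ⟨k, ?_⟩
    rw [lt_div_iff₀ hr] at hk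
    rw [pow_succ]
    have : (0 : ℝ) < (1 / 2) ^ k := by positivity
    nlinarith
  classical
  have h2 := Nat.find_spec h1
  refine ⟨Nat.find h1, h2, ?_⟩
  rcases Nat.eq_zero_or_pos (Nat.find h1) with h3 | h3
  · rw [h3, pow_zero, mul_one]
    exact h
  · obtain ⟨j, hj⟩ := Nat.exists_eq_succ_of_ne_zero h3.ne'
    have := Nat.find_min h1 (m := j) (by omega)
    rw [hj]
    exact not_lt.1 this

/-- near the origin -/
lemma ker_near (r : ℝ) (hr : 0 < r) : ∫⁻ z in closedBall (0 : V) r, ker z ≤ ENNReal.ofReal (64 * r) := by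
  let S : ℕ → Set V := fun k => {z | r * (1 / 2) ^ (k + 1) < ‖z‖ ∧ ‖z‖ ≤ r * (1 / 2) ^ k}
  have hcov : closedBall (0 : V) r ⊆ {0} ∪ ⋃ k, S k := by
    intro z hz
    rw [mem_closedBall_zero_iff] at hz
    by_cases h0 : z = 0
    · exact Or.inl h0
    · right
      obtain ⟨k, hk⟩ := exists_pow_lt' r ‖z‖ (norm_pos_iff.2 h0) hz
      exact mem_iUnion.2 ⟨k, hk⟩
  calc ∫⁻ z in closedBall (0 : V) r, ker z ≤ ∫⁻ z in {0} ∪ ⋃ k, S k, ker z := lintegral_mono_set hcov
    _ ≤ (∫⁻ z in {0}, ker z) + ∫⁻ z in ⋃ k, S k, ker z := lintegral_union_le _ _ _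
    _ = ∫⁻ z in ⋃ k, S k, ker z := by
        rw [Measure.restrict_singleton, measure_singleton, zero_smul, lintegral_zero_measure, zero_add]
    _ ≤ ∑' k, ∫⁻ z in S k, ker z := lintegral_iUnion_le _ _
    _ ≤ ∑' k : ℕ, ENNReal.ofReal (32 * r * (1 / 2) ^ k) := by
        refine ENNReal.tsum_le_tsum fun k => ?_
        have hk : (0 : ℝ) < (1 / 2) ^ k := by positivity
        calc ∫⁻ z in S k, ker z ≤ ∫⁻ z in S k, ENNReal.ofReal (((r * (1 / 2) ^ (k + 1)) ^ 2)⁻¹) := by
              refine setLIntegral_mono' ?_ fun z hz => ker_le (by positivity) hz.1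
              exact (measurableSet_lt measurable_const measurable_norm).inter
                (measurableSet_le measurable_norm measurable_const)
          _ = ENNReal.ofReal (((r * (1 / 2) ^ (k + 1)) ^ 2)⁻¹) * volume (S k) := by
              rw [lintegral_const, Measure.restrict_apply_univ]
          _ ≤ ENNReal.ofReal (((r * (1 / 2) ^ (k + 1)) ^ 2)⁻¹) * ENNReal.ofReal ((2 * (r * (1 / 2) ^ k)) ^ 3) := by
              gcongr
              have h1 : S k ⊆ closedBall (0 : V) (r * (1 / 2) ^ k) := by
                intro z hz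
                rw [mem_closedBall_zero_iff]
                exact hz.2
              refine (measure_mono h1).trans ?_
              rw [Real.volume_pi_closedBall _ (by positivity)]
              simp
          _ = ENNReal.ofReal (32 * r * (1 / 2) ^ k) := by
              rw [← ENNReal.ofReal_mul (by positivity)]
              congr 1
              rw [pow_succ (1 / 2 : ℝ) k]
              field_simp
              ring
    _ = ENNReal.ofReal (2 * (32 * r)) := tsum_geom _ (by positivity)
    _ = ENNReal.ofReal (64 * r) := by ring_nf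

/-- far from the origin -/
lemma ker_far (g : V → ℝ≥0∞) (K ρ r : ℝ) (hK : 0 ≤ K) (hr : 0 < r)
    (hM : ∀ t, 0 < t → t ≤ ρ → ∫⁻ z in closedBall (0 : V) t, g z ≤ ENNReal.ofReal (K * t)) :
    ∫⁻ z in closedBall (0 : V) ρ \ closedBall 0 r, ker z * g z ≤ ENNReal.ofReal (4 * K / r) := by
  let S : ℕ → Set V := fun k => {z | (r * 2 ^ k < ‖z‖ ∧ ‖z‖ ≤ r * 2 ^ (k + 1)) ∧ ‖z‖ ≤ ρ}
  have hcov : closedBall (0 : V) ρ \ closedBall 0 r ⊆ ⋃ k, S k := by
    rintro z ⟨hz, hz'⟩
    rw [mem_closedBall_zero_iff] at hz hz'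
    rw [not_le] at hz'
    obtain ⟨k, hk⟩ := exists_pow_lt r ‖z‖ hr (hr.trans hz') hz'
    exact mem_iUnion.2 ⟨k, hk, hz⟩
  calc ∫⁻ z in closedBall (0 : V) ρ \ closedBall 0 r, ker z * g z
      ≤ ∫⁻ z in ⋃ k, S k, ker z * g z := lintegral_mono_set hcov
    _ ≤ ∑' k, ∫⁻ z in S k, ker z * g z := lintegral_iUnion_le _ _
    _ ≤ ∑' k : ℕ, ENNReal.ofReal (2 * K / r * (1 / 2) ^ k) := by
        refine ENNReal.tsum_le_tsum fun k => ?_
        have hk : (0 : ℝ) < 2 ^ k := by positivity
        have hSm : MeasurableSet (S k) :=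
          ((measurableSet_lt measurable_const measurable_norm).inter
            (measurableSet_le measurable_norm measurable_const)).inter
            (measurableSet_le measurable_norm measurable_const)
        by_cases hρ : ρ ≤ r * 2 ^ k
        · have : S k = ∅ := by
            rw [eq_empty_iff_forall_notMem]
            rintro z ⟨⟨h1, _⟩, h2⟩
            linarith
          rw [this, setLIntegral_empty]
          exact zero_le
        rw [not_le] at hρ
        have hρ0 : 0 < ρ := lt_trans (by positivity) hρ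
        calc ∫⁻ z in S k, ker z * g z ≤ ∫⁻ z in S k, ENNReal.ofReal (((r * 2 ^ k) ^ 2)⁻¹) * g z := by
              refine setLIntegral_mono' hSm fun z hz => ?_
              gcongr
              exact ker_le (by positivity) hz.1.1
          _ = ENNReal.ofReal (((r * 2 ^ k) ^ 2)⁻¹) * ∫⁻ z in S k, g z := by
              rw [lintegral_const_mul' _ _ ENNReal.ofReal_ne_top]
          _ ≤ ENNReal.ofReal (((r * 2 ^ k) ^ 2)⁻¹) * ENNReal.ofReal (K * (r * 2 ^ (k + 1))) := by
              gcongr
              have h1 : S k ⊆ closedBall (0 : V) (min (r * 2 ^ (k + 1)) ρ) := by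
                intro z hz
                rw [mem_closedBall_zero_iff]
                exact le_min hz.1.2 hz.2
              refine (lintegral_mono_set h1).trans ((hM _ (lt_min (by positivity) hρ0) (min_le_right _ _)).trans ?_)
              apply ENNReal.ofReal_le_ofReal
              gcongr
              exact min_le_left _ _
          _ = ENNReal.ofReal (2 * K / r * (1 / 2) ^ k) := by
              rw [← ENNReal.ofReal_mul (by positivity)]
              congr 1
              rw [pow_succ (2 : ℝ) k, one_div, inv_pow]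
              field_simp
    _ = ENNReal.ofReal (2 * (2 * K / r)) := tsum_geom _ (by positivity)
    _ = ENNReal.ofReal (4 * K / r) := by ring_nf

/-- **The basic estimate.** -/
theorem basic (g : V → ℝ≥0∞) (K ρ L : ℝ) (hK : 0 < K) (hL : 0 ≤ L)
    (hM : ∀ t, 0 < t → t ≤ ρ → ∫⁻ z in closedBall (0 : V) t, g z ≤ ENNReal.ofReal (K * t)) :
    ∫⁻ z in closedBall (0 : V) ρ, ker z * (if g z ≤ ENNReal.ofReal L then g z else 0) ≤
      ENNReal.ofReal (68 * √K * √L) := by
  classical
  rcases hL.eq_or_lt with rfl | hL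
  · have : ∀ z, ker z * (if g z ≤ ENNReal.ofReal 0 then g z else 0) = 0 := by
      intro z
      split_ifs with h
      · rw [ENNReal.ofReal_zero, nonpos_iff_eq_zero] at h
        rw [h, mul_zero]
      · rw [mul_zero]
    simp only [this, lintegral_zero]
    exact zero_le
  have hr : 0 < √K / √L := div_pos (Real.sqrt_pos.2 hK) (Real.sqrt_pos.2 hL)
  obtain ⟨r, hrr⟩ : ∃ r, r = √K / √L := ⟨_, rfl⟩
  rw [← hrr] at hr
  have hcov : closedBall (0 : V) ρ ⊆ closedBall (0 : V) r ∪ (closedBall (0 : V) ρ \ closedBall 0 r) := by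
    intro z hz
    by_cases h : z ∈ closedBall (0 : V) r
    · exact Or.inl h
    · exact Or.inr ⟨hz, h⟩
  have hs : 0 < √L := Real.sqrt_pos.2 hL
  have hk : 0 < √K := Real.sqrt_pos.2 hK
  calc ∫⁻ z in closedBall (0 : V) ρ, ker z * (if g z ≤ ENNReal.ofReal L then g z else 0)
      ≤ ∫⁻ z in closedBall (0 : V) r ∪ (closedBall (0 : V) ρ \ closedBall 0 r),
          ker z * (if g z ≤ ENNReal.ofReal L then g z else 0) := lintegral_mono_set hcov
    _ ≤ (∫⁻ z in closedBall (0 : V) r, ker z * (if g z ≤ ENNReal.ofReal L then g z else 0)) +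
        ∫⁻ z in closedBall (0 : V) ρ \ closedBall 0 r,
          ker z * (if g z ≤ ENNReal.ofReal L then g z else 0) := lintegral_union_le _ _ _
    _ ≤ ENNReal.ofReal (64 * r) * ENNReal.ofReal L + ENNReal.ofReal (4 * K / r) := by
        refine add_le_add ?_ ?_
        · calc ∫⁻ z in closedBall (0 : V) r, ker z * (if g z ≤ ENNReal.ofReal L then g z else 0)
              ≤ ∫⁻ z in closedBall (0 : V) r, ker z * ENNReal.ofReal L := by
                refine lintegral_mono fun z => ?_
                gcongr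
                split_ifs with h
                · exact h
                · exact zero_le
            _ = (∫⁻ z in closedBall (0 : V) r, ker z) * ENNReal.ofReal L :=
                lintegral_mul_const' _ _ ENNReal.ofReal_ne_top
            _ ≤ _ := by
                gcongr
                exact ker_near r hr
        · refine le_trans (lintegral_mono fun z => ?_) (ker_far g K ρ r hK.le hr hM)
          gcongr
          split_ifs with h
          · exact le_rfl
          · exact zero_le
    _ = ENNReal.ofReal (68 * √K * √L) := by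
        rw [← ENNReal.ofReal_mul (by positivity), ← ENNReal.ofReal_add (by positivity) (by positivity)]
        congr 1
        rw [hrr]
        have e1 : √L * √L = L := Real.mul_self_sqrt hL.le
        have e2 : √K * √K = K := Real.mul_self_sqrt hK.le
        have e3 : 64 * (√K / √L) * L = 64 * √K * √L := by
          field_simp
          nlinarith
        have e4 : 4 * K / (√K / √L) = 4 * √K * √L := by
          field_simp
          nlinarith
        rw [e3, e4]
        ring

end Pool.Agent.Q225.VD
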