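import Mathlib
import Pool.Agent.Q225.VD.Ker
import Pool.Agent.H459R3.NS.Four

set_option autoImplicit false

/-!
# Project VD, job TRI: the trilinear estimate for the potential
-/

open MeasureTheory Set Metric
open scoped ENNReal
open H459R3.NS Pool.Agent.Q67.VD

namespace Pool.Agent.Q225.VD

section

attribute [local instance] instMeasureSpaceUnitAddCircle

theorem lintegral_torus (f : UnitAddTorus (Fin 3) → ℝ≥0∞) : ∫⁻ t, f t = ∫⁻ x in cube, f (cov x) := by
  rw [UnitAddTorus.lintegral_preimage f 0, Measure.restrict_congr_set cell_ae]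
  rfl

/-- Translation invariance of the integral of a periodic function. -/
theorem lint_shift {f : V → ℝ≥0∞} (hp : Per f) (a : V) :
    ∫⁻ x in cube, f (a + x) = ∫⁻ x in cube, f x := by
  set F : UnitAddTorus (Fin 3) → ℝ≥0∞ := fun t => f (Function.surjInv cov_surj t) with hF
  have e1 : ∀ x, F (cov x) = f x := fun x => hp.eq_of_cov (Function.surjInv_eq cov_surj (cov x))
  have e2 : ∀ x, F (cov a + cov x) = f (a + x) := by
    intro x
    have : cov a + cov x = cov (a + x) := by
      funext i
      simp [cov]
    rw [this, e1]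
  have h1 := lintegral_torus (fun t => F (cov a + t))
  have h2 := lintegral_torus F
  have : Measure.IsAddHaarMeasure (volume : Measure UnitAddCircle) :=
    inferInstanceAs (Measure.IsAddHaarMeasure AddCircle.haarAddCircle)
  have h0 : Measure.IsAddLeftInvariant (volume : Measure (UnitAddTorus (Fin 3))) :=
    inferInstanceAs (Measure.IsAddLeftInvariant
      (Measure.pi fun _ : Fin 3 => (volume : Measure UnitAddCircle)))
  rw [lintegral_add_left_eq_self] at h1
  rw [h1] at h2
  simp_rw [e1, e2] at h2
  exact h2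

end

/-- the square of an integral -/
lemma sq_le (μ : Measure V) [SFinite μ] (h : V → ℝ≥0∞) (hm : Measurable h) (w : V → ℝ) (hw : Measurable w) :
    (∫⁻ z, h z ∂μ) ^ 2 ≤ 2 * ∫⁻ z, h z * (∫⁻ z', (if w z' ≤ w z then h z' else 0) ∂μ) ∂μ := by
  classical
  have hm1 : Measurable fun p : V × V => h p.1 * (if w p.1 ≤ w p.2 then h p.2 else 0) :=
    (hm.comp measurable_fst).mul (Measurable.ite
      (measurableSet_le (hw.comp measurable_fst) (hw.comp measurable_snd)) (hm.comp measurable_snd) measurable_const)
  have hm2 : ∀ z, Measurable fun z' => if w z ≤ w z' then h z' else 0 := fun z =>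
    Measurable.ite (measurableSet_le measurable_const hw) hm measurable_const
  have hm3 : ∀ z, Measurable fun z' => if w z' ≤ w z then h z' else 0 := fun z =>
    Measurable.ite (measurableSet_le hw measurable_const) hm measurable_const
  have hm4 : Measurable fun z => h z * (∫⁻ z', (if w z' ≤ w z then h z' else 0) ∂μ) := by
    refine hm.mul ?_
    refine Measurable.lintegral_prod_right' (f := fun p : V × V => if w p.2 ≤ w p.1 then h p.2 else 0) ?_
    exact Measurable.ite (measurableSet_le (hw.comp measurable_snd) (hw.comp measurable_fst))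
      (hm.comp measurable_snd) measurable_const
  have hB : ∫⁻ z, h z * (∫⁻ z', (if w z ≤ w z' then h z' else 0) ∂μ) ∂μ =
      ∫⁻ z, h z * (∫⁻ z', (if w z' ≤ w z then h z' else 0) ∂μ) ∂μ := by
    have e1 : ∀ z, h z * (∫⁻ z', (if w z ≤ w z' then h z' else 0) ∂μ) =
        ∫⁻ z', h z * (if w z ≤ w z' then h z' else 0) ∂μ := fun z => (lintegral_const_mul _ (hm2 z)).symm
    simp only [e1]
    rw [lintegral_lintegral_swap (f := fun z z' => h z * (if w z ≤ w z' then h z' else 0)) hm1.aemeasurable]
    refine lintegral_congr fun z' => ?_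
    rw [← lintegral_const_mul _ (hm3 z')]
    refine lintegral_congr fun z => ?_
    split_ifs with h1
    · rw [mul_comm]
    · rw [mul_zero, mul_zero]
  calc (∫⁻ z, h z ∂μ) ^ 2 = ∫⁻ z, h z * (∫⁻ z', h z' ∂μ) ∂μ := by
        rw [lintegral_mul_const _ hm, pow_two]
    _ ≤ ∫⁻ z, (h z * (∫⁻ z', (if w z' ≤ w z then h z' else 0) ∂μ) +
          h z * (∫⁻ z', (if w z ≤ w z' then h z' else 0) ∂μ)) ∂μ := by
        refine lintegral_mono fun z => ?_
        rw [← mul_add, ← lintegral_add_left (hm3 z)]
        gcongr with z'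
        rcases le_total (w z') (w z) with h1 | h1
        · rw [if_pos h1]
          exact le_self_add
        · rw [if_pos h1]
          exact le_add_self
    _ = (∫⁻ z, h z * (∫⁻ z', (if w z' ≤ w z then h z' else 0) ∂μ) ∂μ) +
          ∫⁻ z, h z * (∫⁻ z', (if w z ≤ w z' then h z' else 0) ∂μ) ∂μ := lintegral_add_left hm4 _
    _ = _ := by rw [hB, two_mul]

lemma add_sq_le (a b : ℝ≥0∞) : (a + b) ^ 2 ≤ 4 * a ^ 2 + 4 * b ^ 2 := by
  rcases le_total a b with h | h
  · calc (a + b) ^ 2 ≤ (b + b) ^ 2 := by gcongr
      _ = 4 * b ^ 2 := by ring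
      _ ≤ _ := le_add_self
  · calc (a + b) ^ 2 ≤ (a + a) ^ 2 := by gcongr
      _ = 4 * a ^ 2 := by ring
      _ ≤ _ := le_self_add

lemma morL {f : V → ℝ} {K ρ : ℝ} (hc : Continuous f) (h0 : ∀ x, 0 ≤ f x) (hM : Mor K ρ f) (x : V)
    (t : ℝ) (ht : 0 < t) (htρ : t ≤ ρ) :
    ∫⁻ z in closedBall (0 : V) t, ENNReal.ofReal (f (x + z)) ≤ ENNReal.ofReal (K * t) := by
  have h1 : ∫⁻ z in closedBall (0 : V) t, ENNReal.ofReal (f (x + z)) =
      ∫⁻ y in closedBall x t, ENNReal.ofReal (f y) := by
    rw [← lintegral_indicator measurableSet_closedBall, ← lintegral_indicator measurableSet_closedBall,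
      ← lintegral_add_left_eq_self ((closedBall x t).indicator fun y => ENNReal.ofReal (f y)) x]
    refine lintegral_congr fun z => ?_
    by_cases hz : z ∈ closedBall (0 : V) t
    · rw [indicator_of_mem hz, indicator_of_mem]
      rw [mem_closedBall, dist_eq_norm] at hz ⊢
      simpa using hz
    · rw [indicator_of_notMem hz, indicator_of_notMem]
      rw [mem_closedBall, dist_eq_norm] at hz ⊢
      simpa using hz
  have hi : IntegrableOn f (closedBall x t) := hc.continuousOn.integrableOn_compact (isCompact_closedBall x t)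
  rw [h1, ← ofReal_integral_eq_lintegral_ofReal hi (Filter.Eventually.of_forall h0)]
  apply ENNReal.ofReal_le_ofReal
  have h2 := hM x t ht htρ
  simpa only [abs_of_nonneg (h0 _)] using h2

lemma morR {f : V → ℝ} {K ρ : ℝ} (hc : Continuous f) (h0 : ∀ x, 0 ≤ f x) (hM : Mor K ρ f) (x : V)
    (t : ℝ) (ht : 0 < t) (htρ : t ≤ ρ) :
    ∫⁻ z in closedBall (0 : V) t, ENNReal.ofReal (f (x - z)) ≤ ENNReal.ofReal (K * t) := by
  have h1 : ∫⁻ z in closedBall (0 : V) t, ENNReal.ofReal (f (x - z)) =
      ∫⁻ y in closedBall x t, ENNReal.ofReal (f y) := by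
    rw [← lintegral_indicator measurableSet_closedBall, ← lintegral_indicator measurableSet_closedBall,
      ← lintegral_sub_left_eq_self ((closedBall x t).indicator fun y => ENNReal.ofReal (f y)) x]
    refine lintegral_congr fun z => ?_
    by_cases hz : z ∈ closedBall (0 : V) t
    · rw [indicator_of_mem hz, indicator_of_mem]
      rw [mem_closedBall, dist_eq_norm] at hz ⊢
      simpa using hz
    · rw [indicator_of_notMem hz, indicator_of_notMem]
      rw [mem_closedBall, dist_eq_norm] at hz ⊢
      simpa using hz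
  have hi : IntegrableOn f (closedBall x t) := hc.continuousOn.integrableOn_compact (isCompact_closedBall x t)
  rw [h1, ← ofReal_integral_eq_lintegral_ofReal hi (Filter.Eventually.of_forall h0)]
  apply ENNReal.ofReal_le_ofReal
  have h2 := hM x t ht htρ
  simpa only [abs_of_nonneg (h0 _)] using h2

/-- The main estimate with lower integrals. -/
theorem tri_lint {f : V → ℝ} {K ρ : ℝ} (hK : 0 < K) (hc : Continuous f) (hp : Per f) (h0 : ∀ x, 0 ≤ f x)
    (hM : Mor K ρ f) :
    ∫⁻ x in cube, ENNReal.ofReal (f x) ^ 2 *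
        (∫⁻ z in closedBall (0 : V) ρ, ker z * ENNReal.ofReal (f (x + z))) ^ 2 ≤
      12 * ENNReal.ofReal (68 * √K) ^ 2 * ∫⁻ x in cube, ENNReal.ofReal (f x) ^ 3 := by
  classical
  obtain ⟨F, hF⟩ : ∃ F : V → ℝ≥0∞, F = fun x => ENNReal.ofReal (f x) := ⟨_, rfl⟩
  obtain ⟨s, hs⟩ : ∃ s : V → ℝ≥0∞, s = fun x => ENNReal.ofReal (√(f x)) := ⟨_, rfl⟩
  obtain ⟨q, hq⟩ : ∃ q : ℝ≥0∞, q = ENNReal.ofReal (68 * √K) := ⟨_, rfl⟩
  have hFx : ∀ x, ENNReal.ofReal (f x) = F x := fun x => by rw [hF]
  have hss : ∀ x, s x * s x = F x := by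
    intro x
    rw [hs, hF]
    simp only
    rw [← ENNReal.ofReal_mul (Real.sqrt_nonneg _), Real.mul_self_sqrt (h0 x)]
  have hFm : Measurable F := by rw [hF]; exact ENNReal.measurable_ofReal.comp hc.measurable
  have hsm : Measurable s := by rw [hs]; exact ENNReal.measurable_ofReal.comp hc.sqrt.measurable
  have hfm : Measurable f := hc.measurable
  have hFle : ∀ x y, F x ≤ F y ↔ f x ≤ f y := by
    intro x y
    rw [hF]
    exact ENNReal.ofReal_le_ofReal_iff (h0 y)
  have hbas : ∀ (g : V → V), (∀ t, 0 < t → t ≤ ρ → ∫⁻ z in closedBall (0 : V) t, F (g z) ≤ ENNReal.ofReal (K * t)) →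
      ∀ y, ∫⁻ z in closedBall (0 : V) ρ, ker z * (if f (g z) ≤ f y then F (g z) else 0) ≤ q * s y := by
    intro g hg y
    have h1 := basic (fun z => F (g z)) K ρ (f y) hK (h0 y) hg
    have h2 : ENNReal.ofReal (68 * √K * √(f y)) = q * s y := by
      rw [hq, hs, ← ENNReal.ofReal_mul (by positivity)]
    rw [h2] at h1
    refine le_trans (lintegral_mono fun z => ?_) h1
    gcongr
    by_cases h : f (g z) ≤ f y
    · rw [if_pos h, if_pos (by rw [hFx]; exact (hFle _ _).2 h)]
    · rw [if_neg h]
      exact zero_le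
  have hL : ∀ x t, 0 < t → t ≤ ρ → ∫⁻ z in closedBall (0 : V) t, F (x + z) ≤ ENNReal.ofReal (K * t) := by
    intro x t ht htρ
    rw [hF]
    exact morL hc h0 hM x t ht htρ
  have hR : ∀ x t, 0 < t → t ≤ ρ → ∫⁻ z in closedBall (0 : V) t, F (x - z) ≤ ENNReal.ofReal (K * t) := by
    intro x t ht htρ
    rw [hF]
    exact morR hc h0 hM x t ht htρ
  have hkm := measurable_ker
  -- the second part
  have hP : ∀ x, ∫⁻ z in closedBall (0 : V) ρ, ker z * F (x + z) ≤
      q * s x + ∫⁻ z in closedBall (0 : V) ρ, ker z * (if f x < f (x + z) then F (x + z) else 0) := by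
    intro x
    calc ∫⁻ z in closedBall (0 : V) ρ, ker z * F (x + z)
        = ∫⁻ z in closedBall (0 : V) ρ, (ker z * (if f (x + z) ≤ f x then F (x + z) else 0) +
            ker z * (if f x < f (x + z) then F (x + z) else 0)) := by
          refine lintegral_congr fun z => ?_
          by_cases h : f (x + z) ≤ f x
          · rw [if_pos h, if_neg (not_lt.2 h), mul_zero, add_zero]
          · rw [if_neg h, if_pos (not_le.1 h), mul_zero, zero_add]
      _ = (∫⁻ z in closedBall (0 : V) ρ, ker z * (if f (x + z) ≤ f x then F (x + z) else 0)) +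
            ∫⁻ z in closedBall (0 : V) ρ, ker z * (if f x < f (x + z) then F (x + z) else 0) := by
          refine lintegral_add_left ?_ _
          exact hkm.mul (Measurable.ite (measurableSet_le (hfm.comp (measurable_const_add x)) measurable_const)
            (hFm.comp (measurable_const_add x)) measurable_const)
      _ ≤ _ := by
          gcongr
          exact hbas (fun z => x + z) (hL x) x
  have hP2 : ∀ x, (∫⁻ z in closedBall (0 : V) ρ, ker z * (if f x < f (x + z) then F (x + z) else 0)) ^ 2 ≤
      2 * ∫⁻ z in closedBall (0 : V) ρ, (ker z * (if f x < f (x + z) then F (x + z) else 0)) * (q * s (x + z)) := by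
    intro x
    refine (sq_le (volume.restrict (closedBall (0 : V) ρ))
      (fun z => ker z * (if f x < f (x + z) then F (x + z) else 0)) ?_ (fun z => f (x + z)) ?_).trans ?_
    · exact hkm.mul (Measurable.ite (measurableSet_lt measurable_const (hfm.comp (measurable_const_add x)))
        (hFm.comp (measurable_const_add x)) measurable_const)
    · exact hfm.comp (measurable_const_add x)
    · gcongr with z
      refine le_trans (lintegral_mono fun z' => ?_) (hbas (fun z => x + z) (hL x) (x + z))
      by_cases h : f (x + z') ≤ f (x + z)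
      · rw [if_pos h, if_pos h]
        gcongr
        split_ifs
        · exact le_rfl
        · exact zero_le
      · rw [if_neg h]
        exact zero_le
  -- Tonelli and translation
  have hmain : ∫⁻ x in cube, F x ^ 2 *
      (∫⁻ z in closedBall (0 : V) ρ, (ker z * (if f x < f (x + z) then F (x + z) else 0)) * (q * s (x + z))) ≤
      q ^ 2 * ∫⁻ x in cube, F x ^ 3 := by
    let Φ : V → V → ℝ≥0∞ := fun x z => if f x < f (x + z) then F x ^ 2 * (F (x + z) * (q * s (x + z))) else 0
    have hΦm : Measurable fun p : V × V => ker p.2 * Φ p.1 p.2 := by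
      have ha : Measurable fun p : V × V => p.1 + p.2 := measurable_fst.add measurable_snd
      refine (hkm.comp measurable_snd).mul (Measurable.ite
        (measurableSet_lt (hfm.comp measurable_fst) (hfm.comp ha)) ?_ measurable_const)
      exact ((hFm.comp measurable_fst).pow_const 2).mul
        ((hFm.comp ha).mul (measurable_const.mul (hsm.comp ha)))
    have e1 : ∀ x, F x ^ 2 *
        (∫⁻ z in closedBall (0 : V) ρ, (ker z * (if f x < f (x + z) then F (x + z) else 0)) * (q * s (x + z))) =
        ∫⁻ z in closedBall (0 : V) ρ, ker z * Φ x z := by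
      intro x
      rw [← lintegral_const_mul]
      · refine lintegral_congr fun z => ?_
        simp only [Φ]
        split_ifs
        · ring
        · ring
      · exact (hkm.mul (Measurable.ite (measurableSet_lt measurable_const (hfm.comp (measurable_const_add x)))
          (hFm.comp (measurable_const_add x)) measurable_const)).mul
          (measurable_const.mul (hsm.comp (measurable_const_add x)))
    simp only [e1]
    rw [lintegral_lintegral_swap (f := fun x z => ker z * Φ x z) hΦm.aemeasurable]
    have hper : ∀ (z : V), Per fun x => ker z * Φ x z := by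
      intro z i x
      have e : f (x + Pi.single i 1 + z) = f (x + z) := by
        have : x + Pi.single i 1 + z = (x + z) + Pi.single i 1 := by abel
        rw [this]
        exact hp i (x + z)
      have e' : f (x + Pi.single i 1) = f x := hp i x
      simp only [Φ, hF, hs, e, e']
    let Ψ : V → V → ℝ≥0∞ := fun x z => if f (x - z) ≤ f x then F (x - z) else 0
    have hΨm : Measurable fun p : V × V => (F p.1 ^ 2 * (q * s p.1)) * (ker p.2 * Ψ p.1 p.2) := by
      have ha : Measurable fun p : V × V => p.1 - p.2 := measurable_fst.sub measurable_snd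
      refine (((hFm.comp measurable_fst).pow_const 2).mul (measurable_const.mul (hsm.comp measurable_fst))).mul
        ((hkm.comp measurable_snd).mul (Measurable.ite
        (measurableSet_le (hfm.comp ha) (hfm.comp measurable_fst)) (hFm.comp ha) measurable_const))
    calc ∫⁻ z in closedBall (0 : V) ρ, ∫⁻ x in cube, ker z * Φ x z
        = ∫⁻ z in closedBall (0 : V) ρ, ∫⁻ x in cube, ker z * Φ (-z + x) z := by
          refine lintegral_congr fun z => ?_
          exact (lint_shift (hper z) (-z)).symm
      _ ≤ ∫⁻ z in closedBall (0 : V) ρ, ∫⁻ x in cube, (F x ^ 2 * (q * s x)) * (ker z * Ψ x z) := by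
          refine lintegral_mono fun z => lintegral_mono fun x => ?_
          have e2 : -z + x + z = x := by abel
          have e3 : -z + x = x - z := by abel
          simp only [Φ, Ψ]
          rw [e2, e3]
          by_cases h : f (x - z) < f x
          · rw [if_pos h, if_pos h.le]
            have h3 : F (x - z) ≤ F x := (hFle _ _).2 h.le
            calc ker z * (F (x - z) ^ 2 * (F x * (q * s x)))
                = ker z * F (x - z) * (q * s x) * F x * F (x - z) := by ring
              _ ≤ ker z * F (x - z) * (q * s x) * F x * F x := by gcongr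
              _ = F x ^ 2 * (q * s x) * (ker z * F (x - z)) := by ring
          · rw [if_neg h, mul_zero]
            exact zero_le
      _ = ∫⁻ x in cube, ∫⁻ z in closedBall (0 : V) ρ, (F x ^ 2 * (q * s x)) * (ker z * Ψ x z) := by
          rw [lintegral_lintegral_swap (f := fun x z => (F x ^ 2 * (q * s x)) * (ker z * Ψ x z)) hΨm.aemeasurable]
      _ ≤ ∫⁻ x in cube, q ^ 2 * F x ^ 3 := by
          refine lintegral_mono fun x => ?_
          simp only
          rw [lintegral_const_mul]
          · calc F x ^ 2 * (q * s x) * ∫⁻ z in closedBall (0 : V) ρ, ker z * Ψ x z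
                ≤ F x ^ 2 * (q * s x) * (q * s x) := by
                  gcongr
                  exact hbas (fun z => x - z) (hR x) x
              _ = q ^ 2 * F x ^ 2 * (s x * s x) := by ring
              _ = q ^ 2 * F x ^ 3 := by rw [hss]; ring
          · exact hkm.mul (Measurable.ite (measurableSet_le (hfm.comp (measurable_const_sub x)) measurable_const)
              (hFm.comp (measurable_const_sub x)) measurable_const)
      _ = q ^ 2 * ∫⁻ x in cube, F x ^ 3 := lintegral_const_mul _ (hFm.pow_const 3)
  simp only [hFx]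
  rw [← hq]
  have hmeas : Measurable fun x => F x ^ 2 *
      (∫⁻ z in closedBall (0 : V) ρ, (ker z * (if f x < f (x + z) then F (x + z) else 0)) * (q * s (x + z))) := by
    refine (hFm.pow_const 2).mul ?_
    have ha : Measurable fun p : V × V => p.1 + p.2 := measurable_fst.add measurable_snd
    refine Measurable.lintegral_prod_right' (f := fun p : V × V =>
      (ker p.2 * (if f p.1 < f (p.1 + p.2) then F (p.1 + p.2) else 0)) * (q * s (p.1 + p.2))) ?_
    exact ((hkm.comp measurable_snd).mul (Measurable.ite
        (measurableSet_lt (hfm.comp measurable_fst) (hfm.comp ha)) (hFm.comp ha) measurable_const)).mul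
        (measurable_const.mul (hsm.comp ha))
  calc ∫⁻ x in cube, F x ^ 2 * (∫⁻ z in closedBall (0 : V) ρ, ker z * F (x + z)) ^ 2
      ≤ ∫⁻ x in cube, (4 * q ^ 2 * F x ^ 3 + 8 * (F x ^ 2 *
        (∫⁻ z in closedBall (0 : V) ρ, (ker z * (if f x < f (x + z) then F (x + z) else 0)) * (q * s (x + z))))) := by
        refine lintegral_mono fun x => ?_
        calc F x ^ 2 * (∫⁻ z in closedBall (0 : V) ρ, ker z * F (x + z)) ^ 2
            ≤ F x ^ 2 * (q * s x + ∫⁻ z in closedBall (0 : V) ρ, ker z * (if f x < f (x + z) then F (x + z) else 0)) ^ 2 := by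
              gcongr
              exact hP x
          _ ≤ F x ^ 2 * (4 * (q * s x) ^ 2 +
                4 * (∫⁻ z in closedBall (0 : V) ρ, ker z * (if f x < f (x + z) then F (x + z) else 0)) ^ 2) := by
              gcongr
              exact add_sq_le _ _
          _ ≤ F x ^ 2 * (4 * (q * s x) ^ 2 + 4 * (2 * ∫⁻ z in closedBall (0 : V) ρ,
                (ker z * (if f x < f (x + z) then F (x + z) else 0)) * (q * s (x + z)))) := by
              gcongr
              exact hP2 x
          _ = 4 * q ^ 2 * F x ^ 2 * (s x * s x) + 8 * (F x ^ 2 *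
                (∫⁻ z in closedBall (0 : V) ρ, (ker z * (if f x < f (x + z) then F (x + z) else 0)) * (q * s (x + z)))) := by
              ring
          _ = _ := by
              rw [hss]
              ring
    _ = (∫⁻ x in cube, 4 * q ^ 2 * F x ^ 3) + ∫⁻ x in cube, 8 * (F x ^ 2 *
        (∫⁻ z in closedBall (0 : V) ρ, (ker z * (if f x < f (x + z) then F (x + z) else 0)) * (q * s (x + z)))) :=
        lintegral_add_right _ (hmeas.const_mul 8)
    _ = 4 * q ^ 2 * (∫⁻ x in cube, F x ^ 3) + 8 * ∫⁻ x in cube, (F x ^ 2 *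
        (∫⁻ z in closedBall (0 : V) ρ, (ker z * (if f x < f (x + z) then F (x + z) else 0)) * (q * s (x + z)))) := by
        rw [lintegral_const_mul _ (hFm.pow_const 3), lintegral_const_mul _ hmeas]
    _ ≤ 4 * q ^ 2 * (∫⁻ x in cube, F x ^ 3) + 8 * (q ^ 2 * ∫⁻ x in cube, F x ^ 3) := by
        gcongr
    _ = 12 * q ^ 2 * ∫⁻ x in cube, F x ^ 3 := by ring

/-- **JOB VD-TRI.** -/
theorem tri : StmTri := by
  refine ⟨12 * 68 ^ 2, by norm_num, fun K ρ f hK0 hρ hρ1 hc hp h0 hM => ?_⟩
  have key : ∀ K' : ℝ, 0 < K' → K ≤ K' →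
      ∫ x in cube, f x ^ 2 * pot ρ f x ^ 2 ≤ 12 * 68 ^ 2 * K' * ∫ x in cube, f x ^ 3 := by
    intro K' hK' hKK'
    have hM' : Mor K' ρ f := fun x r hr hrρ => (hM x r hr hrρ).trans (by gcongr)
    have h1 := tri_lint hK' hc hp h0 hM'
    have h3nn : 0 ≤ ∫ x in cube, f x ^ 3 := setIntegral_nonneg measurableSet_Icc fun x _ => pow_nonneg (h0 x) 3
    have h3 : ∫⁻ x in cube, ENNReal.ofReal (f x) ^ 3 = ENNReal.ofReal (∫ x in cube, f x ^ 3) := by
      rw [ofReal_integral_eq_lintegral_ofReal (f := fun x => f x ^ 3) (integrableOn_cube (hc.pow 3))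
        (Filter.Eventually.of_forall fun x => pow_nonneg (h0 x) 3)]
      refine lintegral_congr fun x => ?_
      rw [ENNReal.ofReal_pow (h0 x)]
    have h4 : 12 * ENNReal.ofReal (68 * √K') ^ 2 = ENNReal.ofReal (12 * 68 ^ 2 * K') := by
      rw [← ENNReal.ofReal_pow (by positivity), mul_pow, Real.sq_sqrt hK'.le]
      rw [show (12 : ℝ≥0∞) = ENNReal.ofReal 12 by norm_num, ← ENNReal.ofReal_mul (by norm_num)]
      congr 1
      ring
    rw [h3, h4, ← ENNReal.ofReal_mul (by positivity)] at h1
    by_cases hmeas : AEStronglyMeasurable (fun x => f x ^ 2 * pot ρ f x ^ 2) (volume.restrict cube)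
    · rw [integral_eq_lintegral_of_nonneg_ae (Filter.Eventually.of_forall fun x => by positivity) hmeas]
      have h5 : ∫⁻ x in cube, ENNReal.ofReal (f x ^ 2 * pot ρ f x ^ 2) ≤
          ENNReal.ofReal (12 * 68 ^ 2 * K' * ∫ x in cube, f x ^ 3) := by
        refine le_trans (lintegral_mono fun x => ?_) h1
        rw [ENNReal.ofReal_mul (by positivity), ENNReal.ofReal_pow (h0 x)]
        have hpot0 : 0 ≤ pot ρ f x := by
          unfold pot
          exact integral_nonneg fun z => by positivity
        rw [ENNReal.ofReal_pow hpot0]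
        gcongr
        unfold pot
        have hm1 : Measurable fun z : V => |f (x + z)| / ‖z‖ ^ 2 :=
          ((hc.measurable.comp (measurable_const_add x)).abs).div (measurable_norm.pow_const 2)
        rw [integral_eq_lintegral_of_nonneg_ae (Filter.Eventually.of_forall fun z => by positivity)
          hm1.aestronglyMeasurable]
        refine ENNReal.ofReal_toReal_le.trans (le_of_eq ?_)
        refine lintegral_congr fun z => ?_
        unfold ker
        rw [abs_of_nonneg (h0 _), div_eq_mul_inv, mul_comm, ENNReal.ofReal_mul (by positivity)]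
      exact ENNReal.toReal_le_of_le_ofReal (by positivity) h5
    · rw [integral_non_aestronglyMeasurable hmeas]
      positivity
  rcases hK0.eq_or_lt with hK | hK
  · have h3nn : 0 ≤ ∫ x in cube, f x ^ 3 := setIntegral_nonneg measurableSet_Icc fun x _ => pow_nonneg (h0 x) 3
    obtain ⟨I, hI⟩ : ∃ I, I = ∫ x in cube, f x ^ 3 := ⟨_, rfl⟩
    rw [← hI] at h3nn key ⊢
    refine le_of_forall_pos_le_add fun ε hε => ?_
    have h6 := key (ε / (12 * 68 ^ 2 * (I + 1))) (by positivity) (by rw [← hK]; positivity)
    refine h6.trans ?_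
    rw [← hK]
    have h7 : 12 * 68 ^ 2 * (ε / (12 * 68 ^ 2 * (I + 1))) * I = ε * (I / (I + 1)) := by
      field_simp
    rw [h7]
    have h8 : I / (I + 1) ≤ 1 := by
      rw [div_le_one (by positivity)]
      linarith
    nlinarith
  · exact key K hK le_rfl

end Pool.Agent.Q225.VD
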