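import Mathlib
import Pool.Agent.Q225.VD.Tri
import Pool.Agent.H459R3.NS.Ibp

set_option autoImplicit false

/-!
# Project VD, job GN: Gagliardo-Nirenberg inequality with a Morrey norm
-/

open MeasureTheory Set Metric
open scoped ENNReal ContDiff
open H459R3.NS Pool.Agent.Q67.VD

namespace Pool.Agent.Q225.VD

/-! ### the cut-off -/

/-- the cut-off -/
noncomputable def cut (s : ℝ) : ℝ := Real.smoothTransition ((s ^ 2 - 1) / 3)

lemma cut_contDiff : ContDiff ℝ ∞ cut := by
  unfold cut
  exact Real.smoothTransition.contDiff.comp (((contDiff_id.pow 2).sub contDiff_const).div_const 3)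

lemma cut_nonneg (s : ℝ) : 0 ≤ cut s := Real.smoothTransition.nonneg _

lemma cut_le_one (s : ℝ) : cut s ≤ 1 := Real.smoothTransition.le_one _

lemma cut_zero {s : ℝ} (h : |s| ≤ 1) : cut s = 0 := by
  unfold cut
  apply Real.smoothTransition.zero_of_nonpos
  have : s ^ 2 ≤ 1 := by rw [← sq_abs]; nlinarith [abs_nonneg s]
  linarith

lemma cut_one {s : ℝ} (h : 2 ≤ |s|) : cut s = 1 := by
  unfold cut
  apply Real.smoothTransition.one_of_one_le
  have : 4 ≤ s ^ 2 := by rw [← sq_abs]; nlinarith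
  linarith

lemma deriv_cut_zero {s : ℝ} (h : |s| ≤ 1 ∨ 2 ≤ |s|) : deriv cut s = 0 := by
  rcases h with h | h
  · refine IsLocalMin.deriv_eq_zero (Filter.Eventually.of_forall fun t => ?_)
    rw [cut_zero h]
    exact cut_nonneg t
  · refine IsLocalMax.deriv_eq_zero (Filter.Eventually.of_forall fun t => ?_)
    rw [cut_one h]
    exact cut_le_one t

lemma exists_cut_bound : ∃ C : ℝ, 0 < C ∧ ∀ s, |deriv cut s| ≤ C := by
  have hc : Continuous (deriv cut) := cut_contDiff.continuous_deriv (by norm_num)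
  obtain ⟨C, hC⟩ := (isCompact_Icc (a := (-2 : ℝ)) (b := 2)).exists_bound_of_continuousOn hc.continuousOn
  refine ⟨max C 1, by positivity, fun s => ?_⟩
  by_cases h : |s| ≤ 2
  · exact (hC s (abs_le.1 h)).trans (le_max_left _ _)
  · rw [deriv_cut_zero (Or.inr (not_le.1 h).le), abs_zero]
    positivity

/-- the truncation of `f` -/
noncomputable def trunc (l : ℝ) (f : V → ℝ) (x : V) : ℝ := l * cut (f x / l)

lemma trunc_SP {l : ℝ} {f : V → ℝ} (hf : SP f) : SP (trunc l f) where
  smooth := contDiff_const.mul (cut_contDiff.comp (hf.smooth.div_const l))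
  per := fun i x => by unfold trunc; rw [hf.per i x]

lemma trunc_pd {l : ℝ} (hl : 0 < l) {f : V → ℝ} (hf : SP f) (j : Fin 3) (x : V) :
    pd j (trunc l f) x = deriv cut (f x / l) * pd j f x := by
  have h1 : HasFDerivAt f (fderiv ℝ f x) x := (hf.diff x).hasFDerivAt
  have h2 : HasFDerivAt (fun y => f y / l) (l⁻¹ • fderiv ℝ f x) x := by
    have := h1.const_mul l⁻¹
    refine this.congr_of_eventuallyEq (Filter.Eventually.of_forall fun y => ?_)
    simp only
    rw [div_eq_inv_mul]
  have h3 : HasDerivAt cut (deriv cut (f x / l)) (f x / l) :=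
    (cut_contDiff.differentiable (by norm_num) _).hasDerivAt
  have h4 := h3.comp_hasFDerivAt x h2
  have h5 := h4.const_mul l
  have h6 : HasFDerivAt (trunc l f) (l • (deriv cut (f x / l) • (l⁻¹ • fderiv ℝ f x))) x := h5
  unfold pd
  rw [h6.fderiv]
  simp only [smul_apply, smul_eq_mul]
  field_simp

lemma trunc_nonneg {l : ℝ} (hl : 0 < l) (f : V → ℝ) (x : V) : 0 ≤ trunc l f x :=
  mul_nonneg hl.le (cut_nonneg _)

lemma trunc_le {l : ℝ} (hl : 0 < l) (f : V → ℝ) (x : V) : trunc l f x ≤ |f x| := by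
  unfold trunc
  by_cases h : |f x / l| ≤ 1
  · rw [cut_zero h, mul_zero]
    exact abs_nonneg _
  · rw [not_le, abs_div, abs_of_pos hl, lt_div_iff₀ hl, one_mul] at h
    nlinarith [cut_le_one (f x / l)]

lemma trunc_eq {l : ℝ} (hl : 0 < l) (f : V → ℝ) (x : V) (h : 2 * l ≤ |f x|) : trunc l f x = l := by
  unfold trunc
  rw [cut_one, mul_one]
  rw [abs_div, abs_of_pos hl, le_div_iff₀ hl]
  exact h

/-! ### translations -/

lemma sq_integral_le {φ : ℝ → ℝ} (hφ : Continuous φ) :
    (∫ t in (0 : ℝ)..1, φ t) ^ 2 ≤ ∫ t in (0 : ℝ)..1, φ t ^ 2 := by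
  obtain ⟨c, hc⟩ : ∃ c, c = ∫ t in (0 : ℝ)..1, φ t := ⟨_, rfl⟩
  rw [← hc]
  have h1 : 0 ≤ ∫ t in (0 : ℝ)..1, (φ t - c) ^ 2 :=
    intervalIntegral.integral_nonneg (by norm_num) fun t _ => sq_nonneg _
  have h2 : ∫ t in (0 : ℝ)..1, (φ t - c) ^ 2 = (∫ t in (0 : ℝ)..1, φ t ^ 2) - 2 * c * c + c ^ 2 := by
    have e : ∀ t, (φ t - c) ^ 2 = φ t ^ 2 - 2 * c * φ t + c ^ 2 := fun t => by ring
    simp only [e]
    rw [intervalIntegral.integral_add, intervalIntegral.integral_sub, intervalIntegral.integral_const_mul,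
      intervalIntegral.integral_const, ← hc]
    · simp
    · exact (hφ.pow 2).intervalIntegrable _ _
    · exact (continuous_const.mul hφ).intervalIntegrable _ _
    · exact ((hφ.pow 2).sub (continuous_const.mul hφ)).intervalIntegrable _ _
    · exact continuous_const.intervalIntegrable _ _
  rw [h2] at h1
  nlinarith

lemma fderiv_sq_le (g : V → ℝ) (y z : V) :
    (fderiv ℝ g y z) ^ 2 ≤ 3 * ‖z‖ ^ 2 * ∑ j, pd j g y ^ 2 := by
  have hz : z = ∑ j, z j • (Pi.single j 1 : V) := by
    funext i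
    simp [Finset.sum_apply, Pi.single_apply]
  have h1 : fderiv ℝ g y z = ∑ j, z j * pd j g y := by
    conv_lhs => rw [hz]
    rw [map_sum]
    refine Finset.sum_congr rfl fun j _ => ?_
    rw [map_smul, smul_eq_mul]
    rfl
  rw [h1]
  have h2 : ∀ j, |z j| ≤ ‖z‖ := fun j => norm_le_pi_norm z j
  have h3 : |∑ j, z j * pd j g y| ≤ ‖z‖ * ∑ j, |pd j g y| := by
    refine (Finset.abs_sum_le_sum_abs _ _).trans ?_
    rw [Finset.mul_sum]
    refine Finset.sum_le_sum fun j _ => ?_
    rw [abs_mul]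
    exact mul_le_mul_of_nonneg_right (h2 j) (abs_nonneg _)
  have h4 : (∑ j : Fin 3, |pd j g y|) ^ 2 ≤ 3 * ∑ j, pd j g y ^ 2 := by
    have := sq_sum_le_card_mul_sum_sq (s := (Finset.univ : Finset (Fin 3))) (f := fun j => |pd j g y|)
    simp only [sq_abs, Finset.card_univ, Fintype.card_fin] at this
    exact_mod_cast this
  have h5 : 0 ≤ ∑ j, |pd j g y| := Finset.sum_nonneg fun j _ => abs_nonneg _
  calc (∑ j, z j * pd j g y) ^ 2 = |∑ j, z j * pd j g y| ^ 2 := (sq_abs _).symm
    _ ≤ (‖z‖ * ∑ j, |pd j g y|) ^ 2 := by gcongr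
    _ = ‖z‖ ^ 2 * (∑ j, |pd j g y|) ^ 2 := by ring
    _ ≤ ‖z‖ ^ 2 * (3 * ∑ j, pd j g y ^ 2) := by gcongr
    _ = _ := by ring

lemma transl {g : V → ℝ} (hg : SP g) (z : V) :
    ∫⁻ x in cube, ENNReal.ofReal ((g (x + z) - g x) ^ 2) ≤
      ENNReal.ofReal (3 * ‖z‖ ^ 2) * ∫⁻ x in cube, ENNReal.ofReal (∑ j, pd j g x ^ 2) := by
  have hpc : ∀ j, Continuous (pd j g) := fun j => (hg.pd j).cont
  have hHc : Continuous fun x => ∑ j, pd j g x ^ 2 := continuous_finsetSum _ fun j _ => (hpc j).pow 2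
  have h1 : ∀ x, ENNReal.ofReal ((g (x + z) - g x) ^ 2) ≤
      ∫⁻ t in Ioc (0 : ℝ) 1, ENNReal.ofReal (3 * ‖z‖ ^ 2 * ∑ j, pd j g (x + t • z) ^ 2) := by
    intro x
    obtain ⟨φ, hφ⟩ : ∃ φ : ℝ → ℝ, φ = fun t => fderiv ℝ g (x + t • z) z := ⟨_, rfl⟩
    have hφc : Continuous φ := by
      rw [hφ]
      have : Continuous (fderiv ℝ g) := hg.smooth.continuous_fderiv (by norm_num)
      fun_prop
    have hder : ∀ t ∈ uIcc (0 : ℝ) 1, HasDerivAt (fun t : ℝ => g (x + t • z)) (φ t) t := by
      intro t _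
      have e1 : HasFDerivAt g (fderiv ℝ g (x + t • z)) (x + t • z) := (hg.diff _).hasFDerivAt
      have e2 : HasDerivAt (fun t : ℝ => x + t • z) z t := by
        have := ((hasDerivAt_id t).smul_const z).const_add x
        simpa using this
      rw [hφ]
      exact e1.comp_hasDerivAt t e2
    have hint : ∫ t in (0 : ℝ)..1, φ t = g (x + z) - g x := by
      rw [intervalIntegral.integral_eq_sub_of_hasDerivAt hder (hφc.intervalIntegrable _ _)]
      simp
    have hH2 : Continuous fun t : ℝ => 3 * ‖z‖ ^ 2 * ∑ j, pd j g (x + t • z) ^ 2 := by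
      have : Continuous fun t : ℝ => x + t • z := by fun_prop
      exact continuous_const.mul (hHc.comp this)
    have h2 : (g (x + z) - g x) ^ 2 ≤ ∫ t in (0 : ℝ)..1, 3 * ‖z‖ ^ 2 * ∑ j, pd j g (x + t • z) ^ 2 := by
      rw [← hint]
      refine (sq_integral_le hφc).trans ?_
      refine intervalIntegral.integral_mono_on (by norm_num) ((hφc.pow 2).intervalIntegrable _ _)
        (hH2.intervalIntegrable _ _) fun t _ => ?_
      rw [hφ]
      exact fderiv_sq_le g _ z
    refine (ENNReal.ofReal_le_ofReal h2).trans ?_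
    rw [intervalIntegral.integral_of_le (by norm_num),
      ofReal_integral_eq_lintegral_ofReal (f := fun t : ℝ => 3 * ‖z‖ ^ 2 * ∑ j, pd j g (x + t • z) ^ 2)]
    · exact (hH2.continuousOn.integrableOn_compact (isCompact_Icc (a := (0 : ℝ)) (b := 1))).mono_set Ioc_subset_Icc_self
    · exact Filter.Eventually.of_forall fun t => by positivity
  have hper : Per fun x => ENNReal.ofReal (3 * ‖z‖ ^ 2 * ∑ j, pd j g x ^ 2) := by
    intro i x
    have : ∀ j, pd j g (x + Pi.single i 1) = pd j g x := fun j => (hg.pd j).per i x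
    simp only [this]
  calc ∫⁻ x in cube, ENNReal.ofReal ((g (x + z) - g x) ^ 2)
      ≤ ∫⁻ x in cube, ∫⁻ t in Ioc (0 : ℝ) 1, ENNReal.ofReal (3 * ‖z‖ ^ 2 * ∑ j, pd j g (x + t • z) ^ 2) :=
        lintegral_mono h1
    _ = ∫⁻ t in Ioc (0 : ℝ) 1, ∫⁻ x in cube, ENNReal.ofReal (3 * ‖z‖ ^ 2 * ∑ j, pd j g (x + t • z) ^ 2) := by
        refine lintegral_lintegral_swap ?_
        refine Measurable.aemeasurable (ENNReal.measurable_ofReal.comp ?_)
        have : Continuous fun p : V × ℝ => p.1 + p.2 • z := by fun_prop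
        exact (continuous_const.mul (hHc.comp this)).measurable
    _ = ∫⁻ _ in Ioc (0 : ℝ) 1, ∫⁻ x in cube, ENNReal.ofReal (3 * ‖z‖ ^ 2 * ∑ j, pd j g x ^ 2) := by
        refine lintegral_congr fun t => ?_
        have := lint_shift hper (t • z)
        rw [← this]
        refine lintegral_congr fun x => ?_
        rw [add_comm]
    _ = ∫⁻ x in cube, ENNReal.ofReal (3 * ‖z‖ ^ 2 * ∑ j, pd j g x ^ 2) := by
        rw [lintegral_const]
        simp
    _ = _ := by
        rw [← lintegral_const_mul' _ _ ENNReal.ofReal_ne_top]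
        refine lintegral_congr fun x => ?_
        rw [ENNReal.ofReal_mul (by positivity)]

/-! ### the level estimate -/

lemma vol_ball (x : V) {r : ℝ} (hr : 0 < r) : volume (closedBall x r) = ENNReal.ofReal (8 * r ^ 3) := by
  rw [Real.volume_pi_closedBall _ hr.le]
  congr 1
  simp
  ring

lemma level_pt {f g : V → ℝ} {K ρ l r : ℝ} (hf : SP f) (hM : Mor K ρ f) (hl : 0 < l) (hr : 0 < r)
    (hrρ : r ≤ ρ) (hKr : K ≤ l * r ^ 2) (hg : SP g) (hgf : ∀ x, g x ≤ |f x|) (x : V) (hgx : g x = l) :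
    ENNReal.ofReal (2 * l ^ 2 * r ^ 3) ≤ ∫⁻ z in closedBall (0 : V) r, ENNReal.ofReal ((g (x + z) - g x) ^ 2) := by
  have hcg : Continuous fun z => g (x + z) := hg.cont.comp (continuous_const.add continuous_id)
  have hcf : Continuous fun z => |f (x + z)| := (hf.cont.comp (continuous_const.add continuous_id)).abs
  have hI : ∀ h : V → ℝ, Continuous h → IntegrableOn h (closedBall (0 : V) r) := fun h hh =>
    hh.continuousOn.integrableOn_compact (isCompact_closedBall _ _)
  have hvol : (volume.restrict (closedBall (0 : V) r)).real univ = 8 * r ^ 3 := by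
    rw [Measure.real, Measure.restrict_apply_univ, vol_ball 0 hr, ENNReal.toReal_ofReal (by positivity)]
  have hmor : ∫ z in closedBall (0 : V) r, |f (x + z)| ≤ K * r := by
    have h1 := hM x r hr hrρ
    have h2 : ∫ z in closedBall (0 : V) r, |f (x + z)| = ∫ y in closedBall x r, |f y| := by
      rw [← integral_indicator measurableSet_closedBall, ← integral_indicator measurableSet_closedBall,
        ← integral_add_left_eq_self ((closedBall x r).indicator fun y => |f y|) x]
      refine integral_congr_ae (Filter.Eventually.of_forall fun z => ?_)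
      simp only
      by_cases hz : z ∈ closedBall (0 : V) r
      · rw [indicator_of_mem hz, indicator_of_mem]
        rw [mem_closedBall, dist_eq_norm] at hz ⊢
        simpa using hz
      · rw [indicator_of_notMem hz, indicator_of_notMem]
        rw [mem_closedBall, dist_eq_norm] at hz ⊢
        simpa using hz
    rw [h2]
    exact h1
  have hgi : ∫ z in closedBall (0 : V) r, g (x + z) ≤ l * r ^ 3 := by
    calc ∫ z in closedBall (0 : V) r, g (x + z) ≤ ∫ z in closedBall (0 : V) r, |f (x + z)| :=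
          integral_mono (hI _ hcg) (hI _ hcf) fun z => hgf (x + z)
      _ ≤ K * r := hmor
      _ ≤ l * r ^ 2 * r := by gcongr
      _ = l * r ^ 3 := by ring
  have h3 : 2 * l ^ 2 * r ^ 3 ≤ ∫ z in closedBall (0 : V) r, (g (x + z) - g x) ^ 2 := by
    have h4 : ∫ z in closedBall (0 : V) r, (l * (g x - g (x + z)) - l ^ 2 / 4) ≤
        ∫ z in closedBall (0 : V) r, (g (x + z) - g x) ^ 2 := by
      refine integral_mono (hI _ ?_) (hI _ ?_) fun z => ?_
      · exact (continuous_const.mul (continuous_const.sub hcg)).sub continuous_const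
      · exact (hcg.sub continuous_const).pow 2
      · simp only
        nlinarith [sq_nonneg (g x - g (x + z) - l / 2)]
    have h5 : ∫ z in closedBall (0 : V) r, (l * (g x - g (x + z)) - l ^ 2 / 4) =
        8 * r ^ 3 * (l * g x - l ^ 2 / 4) - l * ∫ z in closedBall (0 : V) r, g (x + z) := by
      have e : ∀ z, l * (g x - g (x + z)) - l ^ 2 / 4 = (l * g x - l ^ 2 / 4) - l * g (x + z) := fun z => by ring
      simp only [e]
      have i1 : IntegrableOn (fun _ : V => l * g x - l ^ 2 / 4) (closedBall (0 : V) r) := hI _ continuous_const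
      have i2 : IntegrableOn (fun z : V => l * g (x + z)) (closedBall (0 : V) r) := hI _ (continuous_const.mul hcg)
      rw [integral_sub i1 i2, integral_const_mul, integral_const, hvol, smul_eq_mul]
    rw [h5, hgx] at h4
    rw [hgx]
    nlinarith [pow_pos hr 3, pow_pos hl 2, mul_pos (pow_pos hr 3) (pow_pos hl 2)]
  refine (ENNReal.ofReal_le_ofReal h3).trans (le_of_eq ?_)
  rw [ofReal_integral_eq_lintegral_ofReal (f := fun z => (g (x + z) - g x) ^ 2)
    (hI _ ((hcg.sub continuous_const).pow 2)) (Filter.Eventually.of_forall fun z => sq_nonneg _)]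

lemma level {f g : V → ℝ} {K ρ l r : ℝ} (hf : SP f) (hM : Mor K ρ f) (hl : 0 < l) (hr : 0 < r)
    (hrρ : r ≤ ρ) (hKr : K ≤ l * r ^ 2) (hg : SP g) (hgf : ∀ x, g x ≤ |f x|)
    (hg1 : ∀ x, 2 * l ≤ |f x| → g x = l) :
    ENNReal.ofReal (l ^ 2) * (volume.restrict cube) {x | 2 * l ≤ |f x|} ≤
      ENNReal.ofReal (12 * r ^ 2) * ∫⁻ x in cube, ENNReal.ofReal (∑ j, pd j g x ^ 2) := by
  obtain ⟨G, hG⟩ : ∃ G, G = ∫⁻ x in cube, ENNReal.ofReal (∑ j, pd j g x ^ 2) := ⟨_, rfl⟩
  rw [← hG]
  have hE : MeasurableSet {x | 2 * l ≤ |f x|} := measurableSet_le measurable_const hf.cont.abs.measurable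
  have h1 : ENNReal.ofReal (2 * l ^ 2 * r ^ 3) * (volume.restrict cube) {x | 2 * l ≤ |f x|} ≤
      ENNReal.ofReal (3 * r ^ 2) * G * ENNReal.ofReal (8 * r ^ 3) := by
    calc ENNReal.ofReal (2 * l ^ 2 * r ^ 3) * (volume.restrict cube) {x | 2 * l ≤ |f x|}
        = ∫⁻ x in cube, {x | 2 * l ≤ |f x|}.indicator (fun _ => ENNReal.ofReal (2 * l ^ 2 * r ^ 3)) x := by
          rw [lintegral_indicator_const hE]
      _ ≤ ∫⁻ x in cube, ∫⁻ z in closedBall (0 : V) r, ENNReal.ofReal ((g (x + z) - g x) ^ 2) := by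
          refine lintegral_mono fun x => ?_
          by_cases hx : x ∈ {x | 2 * l ≤ |f x|}
          · rw [indicator_of_mem hx]
            exact level_pt hf hM hl hr hrρ hKr hg hgf x (hg1 x hx)
          · rw [indicator_of_notMem hx]
            exact zero_le
      _ = ∫⁻ z in closedBall (0 : V) r, ∫⁻ x in cube, ENNReal.ofReal ((g (x + z) - g x) ^ 2) := by
          refine lintegral_lintegral_swap ?_
          refine Measurable.aemeasurable (ENNReal.measurable_ofReal.comp ?_)
          have : Continuous fun p : V × V => (g (p.1 + p.2) - g p.1) ^ 2 :=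
            ((hg.cont.comp (continuous_fst.add continuous_snd)).sub (hg.cont.comp continuous_fst)).pow 2
          exact this.measurable
      _ ≤ ∫⁻ _ in closedBall (0 : V) r, ENNReal.ofReal (3 * r ^ 2) * G := by
          refine setLIntegral_mono' measurableSet_closedBall fun z hz => ?_
          refine (transl hg z).trans ?_
          rw [← hG]
          gcongr
          rw [mem_closedBall_zero_iff] at hz
          exact hz
      _ = ENNReal.ofReal (3 * r ^ 2) * G * ENNReal.ofReal (8 * r ^ 3) := by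
          rw [lintegral_const, Measure.restrict_apply_univ, vol_ball 0 hr]
  have hr3 : (0 : ℝ) < 2 * r ^ 3 := by positivity
  have h2 := mul_le_mul_right h1 (ENNReal.ofReal ((2 * r ^ 3)⁻¹))
  calc ENNReal.ofReal (l ^ 2) * (volume.restrict cube) {x | 2 * l ≤ |f x|}
      = ENNReal.ofReal ((2 * r ^ 3)⁻¹) * (ENNReal.ofReal (2 * l ^ 2 * r ^ 3) * (volume.restrict cube) {x | 2 * l ≤ |f x|}) := by
        rw [← mul_assoc, ← ENNReal.ofReal_mul (by positivity)]
        congr 2
        field_simp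
    _ ≤ ENNReal.ofReal ((2 * r ^ 3)⁻¹) * (ENNReal.ofReal (3 * r ^ 2) * G * ENNReal.ofReal (8 * r ^ 3)) := by
        gcongr
    _ = (ENNReal.ofReal ((2 * r ^ 3)⁻¹) * ENNReal.ofReal (3 * r ^ 2) * ENNReal.ofReal (8 * r ^ 3)) * G := by ring
    _ = ENNReal.ofReal (12 * r ^ 2) * G := by
        rw [← ENNReal.ofReal_mul (by positivity), ← ENNReal.ofReal_mul (by positivity)]
        congr 2
        field_simp
        ring

/-! ### summation over the levels -/

lemma exists_level (a t : ℝ) (ha : 0 < a) (h : a < t) : ∃ k : ℕ, a * 2 ^ k < t ∧ t ≤ a * 2 ^ (k + 1) :=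
  exists_pow_lt a t ha (ha.trans h) h

lemma tsum_ind_le (a : ℝ) (ha : 0 < a) (t : ℝ) (c : ℝ≥0∞) :
    ∑' k : ℕ, (if a * 2 ^ k < t ∧ t < 2 * (a * 2 ^ k) then c else 0) ≤ c := by
  by_cases h : ∃ k : ℕ, a * 2 ^ k < t ∧ t < 2 * (a * 2 ^ k)
  · obtain ⟨k, hk⟩ := h
    rw [tsum_eq_single k]
    · rw [if_pos hk]
    · intro j hj
      rw [if_neg]
      rintro ⟨h1, h2⟩
      rcases lt_or_gt_of_ne hj with h3 | h3
      · have h4 : (2 : ℝ) ^ (j + 1) ≤ 2 ^ k := pow_le_pow_right₀ (by norm_num) h3
        rw [pow_succ] at h4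
        nlinarith [hk.1]
      · have h4 : (2 : ℝ) ^ (k + 1) ≤ 2 ^ j := pow_le_pow_right₀ (by norm_num) h3
        rw [pow_succ] at h4
        nlinarith [hk.2]
  · have : ∀ k : ℕ, (if a * 2 ^ k < t ∧ t < 2 * (a * 2 ^ k) then c else 0) = 0 := by
      intro k
      rw [if_neg]
      exact fun h' => h ⟨k, h'⟩
    simp only [this, tsum_zero]
    exact zero_le

/-- **JOB VD-GN.** -/
theorem gn : StmGN := by
  classical
  obtain ⟨C, hC0, hC⟩ := exists_cut_bound
  refine ⟨2 + 768 * C ^ 2, by positivity, fun K ρ f hK0 hρ hρ1 hf hM => ?_⟩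
  have hpc : ∀ j, Continuous (pd j f) := fun j => (hf.pd j).cont
  have hHc : Continuous fun x => ∑ j, pd j f x ^ 2 := continuous_finsetSum _ fun j _ => (hpc j).pow 2
  obtain ⟨H, hH⟩ : ∃ H : V → ℝ, H = fun x => ∑ j, pd j f x ^ 2 := ⟨_, rfl⟩
  have hHc' : Continuous H := by rw [hH]; exact hHc
  have hH0 : ∀ x, 0 ≤ H x := fun x => by rw [hH]; exact Finset.sum_nonneg fun j _ => sq_nonneg _
  have hHI : ∫ x in cube, H x = ∑ j, ∫ x in cube, pd j f x ^ 2 := by
    rw [hH]
    exact integral_finsetSum _ fun j _ => integrableOn_cube ((hpc j).pow 2)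
  have key : ∀ K' : ℝ, 0 < K' → K ≤ K' →
      ∫ x in cube, |f x| ^ 3 ≤ (2 + 768 * C ^ 2) * K' * ((∫ x in cube, H x) + (∫ x in cube, f x ^ 2) / ρ ^ 2) := by
    intro K' hK' hKK'
    have hM' : Mor K' ρ f := fun x r hr hrρ => (hM x r hr hrρ).trans (by gcongr)
    obtain ⟨a, ha⟩ : ∃ a, a = K' / ρ ^ 2 := ⟨_, rfl⟩
    have ha0 : 0 < a := by rw [ha]; positivity
    obtain ⟨lam, hlam⟩ : ∃ lam : ℕ → ℝ, lam = fun k => a * 2 ^ k := ⟨_, rfl⟩
    have hlamk : ∀ k, lam k = a * 2 ^ k := fun k => by rw [hlam]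
    have hlam0 : ∀ k, 0 < lam k := fun k => by rw [hlamk]; positivity
    obtain ⟨r, hr⟩ : ∃ r : ℕ → ℝ, r = fun k => √(K' / lam k) := ⟨_, rfl⟩
    have hrk : ∀ k, r k = √(K' / lam k) := fun k => by rw [hr]
    have hr0 : ∀ k, 0 < r k := fun k => by rw [hrk]; exact Real.sqrt_pos.2 (div_pos hK' (hlam0 k))
    have hr2 : ∀ k, r k ^ 2 = K' / lam k := fun k => by
      rw [hrk, Real.sq_sqrt (div_pos hK' (hlam0 k)).le]
    have hrρ : ∀ k, r k ≤ ρ := by
      intro k
      apply le_of_sq_le_sq _ hρ.le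
      rw [hr2, hlamk, div_le_iff₀ (by positivity), ha]
      have : (1 : ℝ) ≤ 2 ^ k := one_le_pow₀ (by norm_num)
      have e : ρ ^ 2 * (K' / ρ ^ 2 * 2 ^ k) = K' * 2 ^ k := by field_simp
      rw [e]
      nlinarith
    have hKr : ∀ k, K' ≤ lam k * r k ^ 2 := by
      intro k
      rw [hr2, mul_div_cancel₀ _ (hlam0 k).ne']
    -- one level
    have hlev : ∀ k, ENNReal.ofReal ((4 * lam k) ^ 3) * (volume.restrict cube) {x | 2 * lam k ≤ |f x|} ≤
        ENNReal.ofReal (768 * K' * C ^ 2) *
          ∫⁻ x in cube, (if a * 2 ^ k < |f x| ∧ |f x| < 2 * (a * 2 ^ k) then ENNReal.ofReal (H x) else 0) := by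
      intro k
      have h1 := level hf hM' (hlam0 k) (hr0 k) (hrρ k) (hKr k) (trunc_SP (l := lam k) hf)
        (trunc_le (hlam0 k) f) (trunc_eq (hlam0 k) f)
      have h2 : ∫⁻ x in cube, ENNReal.ofReal (∑ j, pd j (trunc (lam k) f) x ^ 2) ≤
          ENNReal.ofReal (C ^ 2) *
          ∫⁻ x in cube, (if a * 2 ^ k < |f x| ∧ |f x| < 2 * (a * 2 ^ k) then ENNReal.ofReal (H x) else 0) := by
        rw [← lintegral_const_mul' _ _ ENNReal.ofReal_ne_top]
        refine lintegral_mono fun x => ?_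
        have e : ∑ j, pd j (trunc (lam k) f) x ^ 2 = deriv cut (f x / lam k) ^ 2 * H x := by
          rw [hH, Finset.mul_sum]
          refine Finset.sum_congr rfl fun j _ => ?_
          rw [trunc_pd (hlam0 k) hf, mul_pow]
        simp only
        rw [e]
        by_cases hx : a * 2 ^ k < |f x| ∧ |f x| < 2 * (a * 2 ^ k)
        · rw [if_pos hx, ← ENNReal.ofReal_mul (by positivity)]
          apply ENNReal.ofReal_le_ofReal
          have h3 : deriv cut (f x / lam k) ^ 2 ≤ C ^ 2 := by
            rw [← sq_abs]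
            exact pow_le_pow_left₀ (abs_nonneg _) (hC _) 2
          exact mul_le_mul_of_nonneg_right h3 (hH0 x)
        · have h3 : deriv cut (f x / lam k) = 0 := by
            apply deriv_cut_zero
            rw [abs_div, abs_of_pos (hlam0 k), div_le_iff₀ (hlam0 k), le_div_iff₀ (hlam0 k), hlamk]
            by_contra h4
            rw [not_or, not_le, not_le] at h4
            exact hx ⟨by linarith [h4.1], h4.2⟩
          rw [h3]
          simp
      have h4 : (0 : ℝ) ≤ 64 * lam k := by have := hlam0 k; positivity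
      calc ENNReal.ofReal ((4 * lam k) ^ 3) * (volume.restrict cube) {x | 2 * lam k ≤ |f x|}
          = ENNReal.ofReal (64 * lam k) * (ENNReal.ofReal (lam k ^ 2) * (volume.restrict cube) {x | 2 * lam k ≤ |f x|}) := by
            rw [← mul_assoc, ← ENNReal.ofReal_mul h4]
            congr 2
            ring
        _ ≤ ENNReal.ofReal (64 * lam k) * (ENNReal.ofReal (12 * r k ^ 2) * (ENNReal.ofReal (C ^ 2) *
            ∫⁻ x in cube, (if a * 2 ^ k < |f x| ∧ |f x| < 2 * (a * 2 ^ k) then ENNReal.ofReal (H x) else 0))) := by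
            exact mul_le_mul' le_rfl (h1.trans (mul_le_mul' le_rfl h2))
        _ = _ := by
            rw [← mul_assoc, ← mul_assoc, ← ENNReal.ofReal_mul h4, ← ENNReal.ofReal_mul (by positivity)]
            congr 2
            rw [hr2]
            have := (hlam0 k).ne'
            field_simp
            ring
    have hptw : ∀ x, ENNReal.ofReal (|f x| ^ 3) ≤ ENNReal.ofReal (2 * a * f x ^ 2) +
        ∑' k, {x | 2 * lam k ≤ |f x|}.indicator (fun _ => ENNReal.ofReal ((4 * lam k) ^ 3)) x := by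
      intro x
      by_cases hx : |f x| ≤ 2 * a
      · refine le_trans ?_ le_self_add
        apply ENNReal.ofReal_le_ofReal
        have : |f x| ^ 3 = |f x| * f x ^ 2 := by rw [← sq_abs (f x)]; ring
        rw [this]
        gcongr
      · rw [not_le] at hx
        obtain ⟨k, hk1, hk2⟩ := exists_level (2 * a) |f x| (by positivity) hx
        refine le_trans ?_ le_add_self
        refine le_trans ?_ (ENNReal.le_tsum k)
        rw [indicator_of_mem]
        · apply ENNReal.ofReal_le_ofReal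
          gcongr
          rw [hlamk]
          rw [pow_succ] at hk2
          linarith
        · change 2 * lam k ≤ |f x|
          rw [hlamk]
          linarith
    have hfm : Measurable fun x => |f x| := hf.cont.abs.measurable
    have hfin : ENNReal.ofReal (∫ x in cube, |f x| ^ 3) ≤
        ENNReal.ofReal (2 * a * ∫ x in cube, f x ^ 2) + ENNReal.ofReal (768 * K' * C ^ 2 * ∫ x in cube, H x) := by
      rw [ofReal_integral_eq_lintegral_ofReal (f := fun x => |f x| ^ 3) (integrableOn_cube (hf.cont.abs.pow 3))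
        (Filter.Eventually.of_forall fun x => by positivity)]
      calc ∫⁻ x in cube, ENNReal.ofReal (|f x| ^ 3)
          ≤ ∫⁻ x in cube, (ENNReal.ofReal (2 * a * f x ^ 2) +
            ∑' k, {x | 2 * lam k ≤ |f x|}.indicator (fun _ => ENNReal.ofReal ((4 * lam k) ^ 3)) x) :=
            lintegral_mono hptw
        _ = (∫⁻ x in cube, ENNReal.ofReal (2 * a * f x ^ 2)) +
            ∑' k, ENNReal.ofReal ((4 * lam k) ^ 3) * (volume.restrict cube) {x | 2 * lam k ≤ |f x|} := by
            have hms : ∀ k, MeasurableSet {x | 2 * lam k ≤ |f x|} := fun k => measurableSet_le measurable_const hfm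
            rw [lintegral_add_left]
            · congr 1
              rw [lintegral_tsum fun k => (measurable_const.indicator (hms k)).aemeasurable]
              refine tsum_congr fun k => ?_
              rw [lintegral_indicator_const (hms k)]
            · exact ENNReal.measurable_ofReal.comp (continuous_const.mul (hf.cont.pow 2)).measurable
        _ ≤ (∫⁻ x in cube, ENNReal.ofReal (2 * a * f x ^ 2)) +
            ∑' k : ℕ, ENNReal.ofReal (768 * K' * C ^ 2) *
              ∫⁻ x in cube, (if a * 2 ^ k < |f x| ∧ |f x| < 2 * (a * 2 ^ k) then ENNReal.ofReal (H x) else 0) := by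
            exact add_le_add le_rfl (ENNReal.tsum_le_tsum fun k => hlev k)
        _ = (∫⁻ x in cube, ENNReal.ofReal (2 * a * f x ^ 2)) + ENNReal.ofReal (768 * K' * C ^ 2) *
              ∫⁻ x in cube, ∑' k : ℕ, (if a * 2 ^ k < |f x| ∧ |f x| < 2 * (a * 2 ^ k) then ENNReal.ofReal (H x) else 0) := by
            rw [ENNReal.tsum_mul_left, lintegral_tsum]
            intro k
            refine Measurable.aemeasurable (Measurable.ite ?_ (ENNReal.measurable_ofReal.comp hHc'.measurable) measurable_const)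
            exact (measurableSet_lt measurable_const hfm).inter (measurableSet_lt hfm measurable_const)
        _ ≤ (∫⁻ x in cube, ENNReal.ofReal (2 * a * f x ^ 2)) + ENNReal.ofReal (768 * K' * C ^ 2) *
              ∫⁻ x in cube, ENNReal.ofReal (H x) := by
            gcongr with x
            exact tsum_ind_le a ha0 |f x| _
        _ = _ := by
            rw [← ofReal_integral_eq_lintegral_ofReal (f := fun x => 2 * a * f x ^ 2)
                (integrableOn_cube (continuous_const.mul (hf.cont.pow 2)))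
                (Filter.Eventually.of_forall fun x => by positivity),
              ← ofReal_integral_eq_lintegral_ofReal (integrableOn_cube hHc') (Filter.Eventually.of_forall hH0),
              ← ENNReal.ofReal_mul (by positivity), integral_const_mul]
    have hI1 : 0 ≤ ∫ x in cube, f x ^ 2 := setIntegral_nonneg measurableSet_Icc fun x _ => sq_nonneg _
    have hI2 : 0 ≤ ∫ x in cube, H x := setIntegral_nonneg measurableSet_Icc fun x _ => hH0 x
    rw [← ENNReal.ofReal_add (by positivity) (by positivity), ENNReal.ofReal_le_ofReal_iff (by positivity)] at hfin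
    refine hfin.trans ?_
    rw [ha]
    obtain ⟨I, hI⟩ : ∃ I, I = ∫ x in cube, f x ^ 2 := ⟨_, rfl⟩
    obtain ⟨J, hJ⟩ : ∃ J, J = ∫ x in cube, H x := ⟨_, rfl⟩
    rw [← hI] at hI1 ⊢
    rw [← hJ] at hI2 ⊢
    have e1 : 2 * (K' / ρ ^ 2) * I = 2 * K' * (I / ρ ^ 2) := by ring
    have h5 : 0 ≤ I / ρ ^ 2 := by positivity
    rw [e1]
    nlinarith [mul_nonneg hK'.le h5, mul_nonneg hK'.le hI2, mul_nonneg (mul_nonneg hK'.le h5) (sq_nonneg C)]
  rw [← hHI]
  rcases hK0.eq_or_lt with hK | hK
  · have hI1 : 0 ≤ ∫ x in cube, f x ^ 2 := setIntegral_nonneg measurableSet_Icc fun x _ => sq_nonneg _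
    have hI2 : 0 ≤ ∫ x in cube, H x := setIntegral_nonneg measurableSet_Icc fun x _ => hH0 x
    obtain ⟨I, hI⟩ : ∃ I, I = (∫ x in cube, H x) + (∫ x in cube, f x ^ 2) / ρ ^ 2 := ⟨_, rfl⟩
    have hI0 : 0 ≤ I := by rw [hI]; positivity
    rw [← hI] at key ⊢
    refine le_of_forall_pos_le_add fun ε hε => ?_
    have h6 := key (ε / ((2 + 768 * C ^ 2) * (I + 1))) (by positivity) (by rw [← hK]; positivity)
    refine h6.trans ?_
    rw [← hK]
    have h7 : (2 + 768 * C ^ 2) * (ε / ((2 + 768 * C ^ 2) * (I + 1))) * I = ε * (I / (I + 1)) := by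
      field_simp
    rw [h7]
    have h8 : I / (I + 1) ≤ 1 := by
      rw [div_le_one (by positivity)]
      linarith
    nlinarith
  · exact key K hK le_rfl

end Pool.Agent.Q225.VD
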